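import Pool.Agent.H78.FU.Lst

/-!
# Project FULL: values of alternating cochains at lists
-/

set_option autoImplicit false
set_option linter.unusedSectionVars false

namespace Pool.Agent.H78.FU

open Pool.Agent.H47.ST

variable {ι : Type*} [Fintype ι] {F : Type*} [Field F]

open Classical in
/-- insertion of the vertex `v` in front -/
noncomputable def kap (v : ι → ℤ) : Co ι F →ₗ[F] Co ι F where
  toFun c s := if v ∈ s then 0 else (-1) ^ (s.filter (fun w => w < v)).card * c (insert v s)
  map_add' c c' := by
    ext s
    simp only [Pi.add_apply]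
    split_ifs <;> ring
  map_smul' a c := by
    ext s
    simp only [Pi.smul_apply, smul_eq_mul, RingHom.id_apply]
    split_ifs <;> ring

open Classical in
theorem kap_apply (v : ι → ℤ) (c : Co ι F) (s : Finset (ι → ℤ)) :
    kap v c s = if v ∈ s then 0 else
      (-1) ^ (s.filter (fun w => w < v)).card * c (insert v s) := rfl

/-- the value of the alternating extension of a cochain at a list of vertices -/
noncomputable def ev : List (ι → ℤ) → Co ι F →ₗ[F] F
  | [] => LinearMap.proj ∅
  | v :: l => (ev l).comp (kap v)

@[simp] theorem ev_nil (c : Co ι F) : ev [] c = c ∅ := rfl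

@[simp] theorem ev_cons (v : ι → ℤ) (l : List (ι → ℤ)) (c : Co ι F) :
    ev (v :: l) c = ev l (kap v c) := rfl

open Classical in
theorem ev_congr {l : List (ι → ℤ)} {c c' : Co ι F} (h : c l.toFinset = c' l.toFinset) :
    ev l c = ev l c' := by
  induction l generalizing c c' with
  | nil => simpa using h
  | cons v l ih =>
    rw [ev_cons, ev_cons]
    refine ih ?_
    rw [kap_apply, kap_apply]
    by_cases hv : v ∈ l.toFinset
    · rw [if_pos hv, if_pos hv]
    · rw [if_neg hv, if_neg hv, ← List.toFinset_cons, h]

open Classical in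
theorem ev_ne_zero {l : List (ι → ℤ)} {c : Co ι F} (h : ev l c ≠ 0) :
    l.Nodup ∧ c l.toFinset ≠ 0 := by
  induction l generalizing c with
  | nil => exact ⟨List.nodup_nil, by simpa using h⟩
  | cons v l ih =>
    rw [ev_cons] at h
    obtain ⟨h1, h2⟩ := ih h
    rw [kap_apply] at h2
    by_cases hv : v ∈ l.toFinset
    · rw [if_pos hv] at h2; exact absurd rfl h2
    · rw [if_neg hv, ← List.toFinset_cons] at h2
      exact ⟨List.nodup_cons.2 ⟨fun h3 => hv (List.mem_toFinset.2 h3), h1⟩,
        right_ne_zero_of_mul h2⟩

open Classical in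
theorem ev_zero {l : List (ι → ℤ)} {c : Co ι F} (h : c l.toFinset = 0) : ev l c = 0 := by
  rw [ev_congr (c' := 0) (by rw [h]; rfl), map_zero]

open Classical in
/-- the sign of the list obtained from `sgn` -/
theorem sgn_apply (σ : Finset (ι → ℤ)) (v : ι → ℤ) :
    sgn F σ v = (-1) ^ (σ.filter (fun w => w < v)).card := rfl

open Classical in
theorem kap_dd (v : ι → ℤ) (c : Co ι F) (s : Finset (ι → ℤ))
    (hs : ∀ w ∈ s, w ≤ v ∨ v ≤ w) : dd (kap v c) s + kap v (dd c) s = c s := by
  by_cases hv : v ∈ s
  · rw [dd_apply, Finset.sum_eq_single_of_mem v hv]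
    · rw [kap_apply, kap_apply, if_neg (Finset.notMem_erase v s), if_pos hv, add_zero,
        Finset.insert_erase hv, sgn_apply, ← mul_assoc]
      have h1 : (s.erase v).filter (fun w => w < v) = s.filter (fun w => w < v) := by
        ext w
        simp only [Finset.mem_filter, Finset.mem_erase]
        constructor
        · rintro ⟨⟨_, h1⟩, h2⟩; exact ⟨h1, h2⟩
        · rintro ⟨h1, h2⟩; exact ⟨⟨h2.ne, h1⟩, h2⟩
      rw [h1, ← pow_add, ← two_mul, pow_mul, neg_one_sq, one_pow, one_mul]
    · intro w hw hne
      rw [kap_apply, if_pos (Finset.mem_erase.2 ⟨Ne.symm hne, hv⟩), mul_zero]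
  · rw [kap_apply, if_neg hv, dd_apply, dd_apply, Finset.sum_insert hv, mul_add,
      Finset.erase_insert hv, Finset.mul_sum]
    have h1 : (insert v s).filter (fun w => w < v) = s.filter (fun w => w < v) := by
      rw [Finset.filter_insert, if_neg (lt_irrefl v)]
    have h2 : ((-1 : F) ^ (s.filter (fun w => w < v)).card) * (sgn F (insert v s) v * c s) =
        c s := by
      rw [sgn_apply, h1, ← mul_assoc, ← pow_add, ← two_mul, pow_mul, neg_one_sq, one_pow,
        one_mul]
    rw [h2, add_left_comm, ← Finset.sum_add_distrib]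
    rw [Finset.sum_eq_zero, add_zero]
    intro w hw
    have hwv : w ≠ v := fun h => hv (h ▸ hw)
    have hvw : v ∉ s.erase w := fun h => hv (Finset.mem_of_mem_erase h)
    have hins : (insert v s).erase w = insert v (s.erase w) := Finset.erase_insert_of_ne hwv.symm
    rw [kap_apply, if_neg hvw, hins, sgn_apply, sgn_apply]
    rcases hs w hw with h | h
    · have hlt : w < v := lt_of_le_of_ne h hwv
      have h3 : (insert v s).filter (fun u => u < w) = s.filter (fun u => u < w) := by
        rw [Finset.filter_insert, if_neg (fun h' => lt_asymm h' hlt)]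
      have h4 : ((s.erase w).filter (fun u => u < v)).card + 1 =
          (s.filter (fun u => u < v)).card := by
        rw [Finset.filter_erase]
        exact Finset.card_erase_add_one (Finset.mem_filter.2 ⟨hw, hlt⟩)
      rw [h3, ← h4, pow_succ]
      ring
    · have hlt : v < w := lt_of_le_of_ne h hwv.symm
      have h3 : ((insert v s).filter (fun u => u < w)).card =
          (s.filter (fun u => u < w)).card + 1 := by
        rw [Finset.filter_insert, if_pos hlt, Finset.card_insert_of_notMem]
        exact fun h' => hv (Finset.mem_of_mem_filter v h')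
      have h4 : (s.erase w).filter (fun u => u < v) = s.filter (fun u => u < v) := by
        rw [Finset.filter_erase, Finset.erase_eq_of_notMem]
        intro h'
        exact lt_asymm hlt (Finset.mem_filter.1 h').2
      rw [h3, h4, pow_succ]
      ring

open Classical in
/-- the coboundary at a list whose vertices form a simplex -/
theorem ev_dd {l : List (ι → ℤ)} (hl : ∀ v ∈ l, ∀ w ∈ l, v ≤ w ∨ w ≤ v) (c : Co ι F) :
    ev l (dd c) = D l (fun t => ev t c) := by
  induction l generalizing c with
  | nil =>
    rw [ev_nil, dd_apply, Finset.sum_empty, D_nil]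
  | cons v l ih =>
    have hl' : ∀ v ∈ l, ∀ w ∈ l, v ≤ w ∨ w ≤ v := fun a ha b hb =>
      hl a (List.mem_cons_of_mem v ha) b (List.mem_cons_of_mem v hb)
    have h1 : D l (fun t => ev (v :: t) c) = ev l (dd (kap v c)) := (ih hl' (kap v c)).symm
    rw [D_cons, h1, ev_cons, ← map_sub]
    refine ev_congr ?_
    rw [Pi.sub_apply, eq_sub_iff_add_eq, add_comm]
    refine kap_dd v c _ fun w hw => ?_
    exact hl w (List.mem_cons_of_mem v (List.mem_toFinset.1 hw)) v List.mem_cons_self

open Classical in
/-- the value at an increasing list -/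
theorem ev_sorted {l : List (ι → ℤ)} (hl : l.Pairwise (· < ·)) (c : Co ι F) :
    ev l c = c l.toFinset := by
  induction l generalizing c with
  | nil => rfl
  | cons v l ih =>
    rw [List.pairwise_cons] at hl
    rw [ev_cons, ih hl.2, kap_apply]
    have h1 : v ∉ l.toFinset := fun h => lt_irrefl _ (hl.1 v (List.mem_toFinset.1 h))
    have h2 : l.toFinset.filter (fun w => w < v) = ∅ := by
      rw [Finset.filter_eq_empty_iff]
      intro w hw h
      exact lt_asymm h (hl.1 w (List.mem_toFinset.1 hw))
    rw [if_neg h1, h2, Finset.card_empty, pow_zero, one_mul, List.toFinset_cons]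

open Classical in
/-- order automorphisms -/
theorem ev_map_equiv (e : (ι → ℤ) ≃ (ι → ℤ)) (he : ∀ v w, e v < e w ↔ v < w)
    (l : List (ι → ℤ)) (c : Co ι F) :
    ev (l.map e) c = ev l (fun σ => c (σ.map e.toEmbedding)) := by
  induction l generalizing c with
  | nil => rfl
  | cons v l ih =>
    rw [List.map_cons, ev_cons, ev_cons, ih]
    refine ev_congr ?_
    rw [kap_apply, kap_apply]
    have h1 : e v ∈ l.toFinset.map e.toEmbedding ↔ v ∈ l.toFinset :=
      Finset.mem_map' e.toEmbedding
    by_cases hv : v ∈ l.toFinset
    · rw [if_pos (h1.2 hv), if_pos hv]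
    · rw [if_neg (fun h => hv (h1.1 h)), if_neg hv, Finset.map_insert]
      congr 2
      rw [Finset.filter_map, Finset.card_map]
      congr 1
      ext w
      simp only [Finset.mem_filter, Function.comp_apply, Equiv.coe_toEmbedding, he]

end Pool.Agent.H78.FU
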