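import Pool.Agent.H47.ST.CellA

/-!
# Project FULL: functions on lists (coboundary, prism, alternating extension)
-/

set_option autoImplicit false

namespace Pool.Agent.H78.FU

variable {V W F : Type*} [Field F]

/-- the coboundary of a function on lists -/
def D : List V → (List V → F) → F
  | [], _ => 0
  | a :: l, c => c l - D l (fun t => c (a :: t))

@[simp] theorem D_nil (c : List V → F) : D [] c = 0 := rfl

@[simp] theorem D_cons (a : V) (l : List V) (c : List V → F) :
    D (a :: l) c = c l - D l (fun t => c (a :: t)) := rfl

theorem D_add (l : List V) (c c' : List V → F) : D l (fun t => c t + c' t) = D l c + D l c' := by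
  induction l generalizing c c' with
  | nil => simp
  | cons a l ih => rw [D_cons, D_cons, D_cons, ih]; ring

theorem D_neg (l : List V) (c : List V → F) : D l (fun t => -c t) = -D l c := by
  induction l generalizing c with
  | nil => simp
  | cons a l ih => rw [D_cons, D_cons, ih]; ring

theorem D_sub (l : List V) (c c' : List V → F) : D l (fun t => c t - c' t) = D l c - D l c' := by
  have h := D_add l c (fun t => -c' t)
  rw [D_neg] at h
  simpa [sub_eq_add_neg] using h

theorem D_map (φ : V → W) (l : List V) (c : List W → F) :
    D (l.map φ) c = D l (fun t => c (t.map φ)) := by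
  induction l generalizing c with
  | nil => rfl
  | cons a l ih =>
    rw [List.map_cons, D_cons, D_cons, ih]
    rfl

theorem D_congr {l : List V} {c c' : List V → F}
    (h : ∀ t, t.Sublist l → t.length + 1 = l.length → c t = c' t) : D l c = D l c' := by
  induction l generalizing c c' with
  | nil => rfl
  | cons a l ih =>
    rw [D_cons, D_cons, h l (List.sublist_cons_self a l) rfl]
    congr 1
    refine ih fun t ht hl => h _ (ht.cons_cons a) ?_
    rw [List.length_cons, List.length_cons, hl]

/-- the prism operator -/
def P (φ ψ : V → W) : List V → (List W → F) → F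
  | [], _ => 0
  | a :: l, c => c (φ a :: ψ a :: l.map ψ) - P φ ψ l (fun t => c (φ a :: t))

@[simp] theorem P_nil (φ ψ : V → W) (c : List W → F) : P φ ψ [] c = 0 := rfl

@[simp] theorem P_cons (φ ψ : V → W) (a : V) (l : List V) (c : List W → F) :
    P φ ψ (a :: l) c = c (φ a :: ψ a :: l.map ψ) - P φ ψ l (fun t => c (φ a :: t)) := rfl

theorem P_sub (φ ψ : V → W) (l : List V) (c c' : List W → F) :
    P φ ψ l (fun t => c t - c' t) = P φ ψ l c - P φ ψ l c' := by
  induction l generalizing c c' with
  | nil => simp
  | cons a l ih => rw [P_cons, P_cons, P_cons, ih]; ring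

/-- **prism identity** -/
theorem D_P (φ ψ : V → W) (l : List V) (c : List W → F) :
    D l (fun t => P φ ψ t c) + P φ ψ l (fun s => D s c) = c (l.map ψ) - c (l.map φ) := by
  induction l generalizing c with
  | nil => simp
  | cons a l ih =>
    have h1 : D l (fun t => P φ ψ (a :: t) c) =
        D l (fun t => c (φ a :: ψ a :: t.map ψ)) -
          D l (fun t => P φ ψ t (fun s => c (φ a :: s))) := by
      rw [← D_sub]
      rfl
    have h2 : P φ ψ l (fun t => D (φ a :: t) c) =
        P φ ψ l c - P φ ψ l (fun t => D t (fun s => c (φ a :: s))) := by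
      rw [← P_sub]
      rfl
    have h3 := ih (fun s => c (φ a :: s))
    rw [D_cons, P_cons, h1, h2, D_cons, D_cons, D_map]
    simp only [List.map_cons]
    linear_combination h3

theorem P_congr {φ ψ : V → W} {l : List V} {c c' : List W → F}
    (h : ∀ l₁ a l₂, l = l₁ ++ a :: l₂ →
      c (l₁.map φ ++ φ a :: ψ a :: l₂.map ψ) = c' (l₁.map φ ++ φ a :: ψ a :: l₂.map ψ)) :
    P φ ψ l c = P φ ψ l c' := by
  induction l generalizing c c' with
  | nil => rfl
  | cons a l ih =>
    rw [P_cons, P_cons]
    congr 1
    · exact h [] a l rfl
    · refine ih fun l₁ b l₂ hl => ?_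
      have h1 := h (a :: l₁) b l₂ (by rw [hl]; rfl)
      simpa using h1

theorem P_zero (φ ψ : V → W) (l : List V) : P φ ψ l (fun _ => (0 : F)) = 0 := by
  induction l with
  | nil => rfl
  | cons a l ih => rw [P_cons, ih, sub_zero]

end Pool.Agent.H78.FU
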