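import Pool.Agent.H78.FU.Ev

/-!
# Project FULL: pull back of cochains along vertex maps, prism homotopy
-/

set_option autoImplicit false
set_option linter.unusedSectionVars false

namespace Pool.Agent.H78.FU

open Pool.Agent.H47.ST

variable {ι : Type*} [Fintype ι] {F : Type*} [Field F]

/-! ### the increasing list of a simplex -/

open Classical in
theorem sl_exists : ∀ (k : ℕ) (σ : Finset (ι → ℤ)), σ.card = k → Simp σ →
    ∃ l : List (ι → ℤ), l.Pairwise (· < ·) ∧ l.toFinset = σ := by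
  intro k
  induction k with
  | zero =>
    intro σ h _
    exact ⟨[], List.Pairwise.nil, by rw [Finset.card_eq_zero.1 h]; rfl⟩
  | succ k ih =>
    intro σ h hs
    have hne : σ.Nonempty := Finset.card_pos.1 (by omega)
    obtain ⟨m, hm⟩ := Finset.exists_minimal hne
    have hmin : ∀ w ∈ σ, m ≤ w := by
      intro w hw
      rcases hs m hm.1 w hw with h1 | h1
      · exact h1.1
      · exact hm.2 hw h1.1
    obtain ⟨l, hl, hl'⟩ := ih (σ.erase m) (by rw [Finset.card_erase_of_mem hm.1, h]; rfl)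
      (hs.mono (Finset.erase_subset m σ))
    refine ⟨m :: l, ?_, ?_⟩
    · rw [List.pairwise_cons]
      refine ⟨fun w hw => ?_, hl⟩
      have h1 : w ∈ σ.erase m := by rw [← hl']; exact List.mem_toFinset.2 hw
      exact lt_of_le_of_ne (hmin w (Finset.mem_of_mem_erase h1)) (Finset.ne_of_mem_erase h1).symm
    · rw [List.toFinset_cons, hl', Finset.insert_erase hm.1]

open Classical in
/-- the increasing list of the vertices of a simplex -/
noncomputable def sl (σ : Finset (ι → ℤ)) : List (ι → ℤ) :=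
  if h : ∃ l : List (ι → ℤ), l.Pairwise (· < ·) ∧ l.toFinset = σ then h.choose else []

open Classical in
theorem sl_unique {l l' : List (ι → ℤ)} (hl : l.Pairwise (· < ·)) (hl' : l'.Pairwise (· < ·))
    (h : l.toFinset = l'.toFinset) : l = l' := by
  induction l generalizing l' with
  | nil =>
    have h1 : l'.toFinset = ∅ := h.symm
    rw [List.toFinset_eq_empty_iff] at h1
    exact h1.symm
  | cons a t ih =>
    cases l' with
    | nil =>
      have h1 : (a :: t).toFinset = ∅ := h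
      rw [List.toFinset_eq_empty_iff] at h1
      exact h1
    | cons b t' =>
      rw [List.pairwise_cons] at hl hl'
      have h1 : a ∈ (b :: t').toFinset := by rw [← h]; simp
      have h2 : b ∈ (a :: t).toFinset := by rw [h]; simp
      have h3 : a = b := by
        rw [List.mem_toFinset, List.mem_cons] at h1 h2
        rcases h1 with h1 | h1
        · exact h1
        · rcases h2 with h2 | h2
          · exact h2.symm
          · exact absurd (hl.1 b h2) (lt_asymm (hl'.1 a h1))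
      subst h3
      have ha : a ∉ t.toFinset := fun h4 => lt_irrefl _ (hl.1 a (List.mem_toFinset.1 h4))
      have ha' : a ∉ t'.toFinset := fun h4 => lt_irrefl _ (hl'.1 a (List.mem_toFinset.1 h4))
      rw [ih hl.2 hl'.2]
      rw [List.toFinset_cons, List.toFinset_cons] at h
      rw [← Finset.erase_insert ha, h, Finset.erase_insert ha']

open Classical in
theorem sl_eq {l : List (ι → ℤ)} (hl : l.Pairwise (· < ·)) : sl l.toFinset = l := by
  have h : ∃ l' : List (ι → ℤ), l'.Pairwise (· < ·) ∧ l'.toFinset = l.toFinset := ⟨l, hl, rfl⟩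
  unfold sl
  rw [dif_pos h]
  exact sl_unique h.choose_spec.1 hl h.choose_spec.2

open Classical in
theorem sl_spec {σ : Finset (ι → ℤ)} (hs : Simp σ) :
    (sl σ).Pairwise (· < ·) ∧ (sl σ).toFinset = σ := by
  have h := sl_exists _ σ rfl hs
  unfold sl
  rw [dif_pos h]
  exact h.choose_spec

open Classical in
theorem mem_sl {σ : Finset (ι → ℤ)} (hs : Simp σ) {v : ι → ℤ} : v ∈ sl σ ↔ v ∈ σ := by
  rw [← List.mem_toFinset, (sl_spec hs).2]

theorem length_sl {σ : Finset (ι → ℤ)} (hs : Simp σ) : (sl σ).length = σ.card := by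
  classical
  obtain ⟨h1, h2⟩ := sl_spec hs
  rw [← h2, List.toFinset_card_of_nodup (h1.imp fun h => h.ne), h2]

theorem chain_of_pairwise {l : List (ι → ℤ)} (hl : l.Pairwise (· < ·)) :
    ∀ v ∈ l, ∀ w ∈ l, v ≤ w ∨ w ≤ v := by
  induction l with
  | nil => intro v hv; exact absurd hv List.not_mem_nil
  | cons a t ih =>
    rw [List.pairwise_cons] at hl
    intro v hv w hw
    rw [List.mem_cons] at hv hw
    rcases hv with rfl | hv
    · rcases hw with rfl | hw
      · exact Or.inl le_rfl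
      · exact Or.inl (hl.1 w hw).le
    · rcases hw with rfl | hw
      · exact Or.inr (hl.1 v hv).le
      · exact ih hl.2 v hv w hw

/-- an order automorphism of the vertices -/
theorem sl_map (e : (ι → ℤ) ≃ (ι → ℤ)) (he : ∀ v w, e v < e w ↔ v < w) {σ : Finset (ι → ℤ)}
    (hs : Simp σ) : sl (σ.map e.toEmbedding) = (sl σ).map e := by
  classical
  obtain ⟨h1, h2⟩ := sl_spec hs
  have h3 : ((sl σ).map e).toFinset = σ.map e.toEmbedding := by
    ext w
    rw [List.mem_toFinset, List.mem_map, Finset.mem_map]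
    simp only [mem_sl hs, Equiv.coe_toEmbedding]
  rw [← h3]
  refine sl_eq ?_
  rw [List.pairwise_map]
  exact h1.imp fun {a b} h => (he a b).2 h

/-! ### live simplices, pull back, prism -/

/-- simplices in `X`, not in `A` -/
def Live (X A : Set (ι → ℤ)) (σ : Finset (ι → ℤ)) : Prop := In X σ ∧ ¬ ∀ v ∈ σ, v ∈ A

open Classical in
/-- pull back of cochains along the vertex map `φ` -/
noncomputable def pb (X A : Set (ι → ℤ)) (φ : (ι → ℤ) → (ι → ℤ)) : Co ι F →ₗ[F] Co ι F where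
  toFun c σ := if Live X A σ then ev ((sl σ).map φ) c else 0
  map_add' c c' := by
    ext σ
    simp only [Pi.add_apply, map_add]
    split_ifs <;> simp
  map_smul' a c := by
    ext σ
    simp only [Pi.smul_apply, smul_eq_mul, RingHom.id_apply, map_smul]
    split_ifs <;> simp

open Classical in
theorem pb_apply (X A : Set (ι → ℤ)) (φ : (ι → ℤ) → (ι → ℤ)) (c : Co ι F)
    (σ : Finset (ι → ℤ)) :
    pb X A φ c σ = if Live X A σ then ev ((sl σ).map φ) c else 0 := rfl

open Classical in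
/-- prism operator -/
noncomputable def pr (X A : Set (ι → ℤ)) (φ ψ : (ι → ℤ) → (ι → ℤ)) (c : Co ι F) : Co ι F :=
  fun σ => if Live X A σ then P φ ψ (sl σ) (fun t => ev t c) else 0

/-- `φ` is a vertex map from `(X, A)` to `(X', A')` -/
structure VM (L : AddSubgroup (ι → ℤ)) (X A : Set (ι → ℤ)) (L' : AddSubgroup (ι → ℤ))
    (X' A' : Set (ι → ℤ)) (φ : (ι → ℤ) → (ι → ℤ)) : Prop where
  sim : ∀ σ, Live X A σ → ∀ v ∈ σ, ∀ w ∈ σ, φ v ∈ X' ∧ Adj (φ v) (φ w)
  bd : ∀ σ, Live X A σ → ∀ v ∈ σ, v ∈ A → φ v ∈ A'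
  per : ∀ l ∈ L, ∃ l' ∈ L', ∀ v, φ (v + l) = φ v + l'

/-- `φ`, `ψ` are contiguous (weak form) -/
structure VP (L : AddSubgroup (ι → ℤ)) (X A : Set (ι → ℤ)) (L' : AddSubgroup (ι → ℤ))
    (X' A' : Set (ι → ℤ)) (φ ψ : (ι → ℤ) → (ι → ℤ)) : Prop where
  simφ : ∀ σ, Live X A σ → ∀ v ∈ σ, ∀ w ∈ σ, φ v ∈ X' ∧ Adj (φ v) (φ w)
  simψ : ∀ σ, Live X A σ → ∀ v ∈ σ, ∀ w ∈ σ, ψ v ∈ X' ∧ Adj (ψ v) (ψ w)
  sim : ∀ σ, Live X A σ → ∀ v ∈ σ, ∀ w ∈ σ, v ≤ w → Adj (φ v) (ψ w)
  bdφ : ∀ σ, Live X A σ → ∀ v ∈ σ, v ∈ A → φ v ∈ A'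
  bdψ : ∀ σ, Live X A σ → ∀ v ∈ σ, v ∈ A → ψ v ∈ A'
  per : ∀ l ∈ L, ∃ l' ∈ L', ∀ v, φ (v + l) = φ v + l' ∧ ψ (v + l) = ψ v + l'

variable {L L' : AddSubgroup (ι → ℤ)} {X A X' A' : Set (ι → ℤ)} {φ ψ : (ι → ℤ) → (ι → ℤ)}

theorem VP.left (h : VP L X A L' X' A' φ ψ) : VM L X A L' X' A' φ :=
  ⟨h.simφ, h.bdφ, fun l hl => by
    obtain ⟨l', hl', h'⟩ := h.per l hl
    exact ⟨l', hl', fun v => (h' v).1⟩⟩

theorem VP.right (h : VP L X A L' X' A' φ ψ) : VM L X A L' X' A' ψ :=
  ⟨h.simψ, h.bdψ, fun l hl => by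
    obtain ⟨l', hl', h'⟩ := h.per l hl
    exact ⟨l', hl', fun v => (h' v).2⟩⟩

theorem tr_eq (l : ι → ℤ) (σ : Finset (ι → ℤ)) : tr l σ = σ.map (Equiv.addRight l).toEmbedding :=
  rfl

theorem live_tr (hX : Inv L X) (hA : Inv L A) {l : ι → ℤ} (hl : l ∈ L) {σ : Finset (ι → ℤ)} :
    Live X A (tr l σ) ↔ Live X A σ := by
  classical
  unfold Live
  rw [CellA_tr_In hX hl]
  have h1 : (∀ v ∈ tr l σ, v ∈ A) ↔ ∀ v ∈ σ, v ∈ A := by
    constructor
    · intro h v hv
      rw [hA l hl v]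
      exact h _ (Finset.mem_map.2 ⟨v, hv, rfl⟩)
    · intro h v hv
      obtain ⟨w, hw, rfl⟩ := Finset.mem_map.1 hv
      exact (hA l hl w).1 (h w hw)
  rw [h1]

theorem sl_tr (l : ι → ℤ) {σ : Finset (ι → ℤ)} (hs : Simp σ) :
    sl (tr l σ) = (sl σ).map (fun v => v + l) :=
  sl_map (Equiv.addRight l) (fun v w => by simp) hs

theorem ev_tr (l : ι → ℤ) (t : List (ι → ℤ)) {c : Co ι F} (hc : ∀ σ, c (tr l σ) = c σ) :
    ev (t.map (fun v => v + l)) c = ev t c := by
  have h := ev_map_equiv (F := F) (Equiv.addRight l) (fun v w => by simp) t c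
  have h1 : (fun σ => c (σ.map (Equiv.addRight l).toEmbedding)) = c := funext hc
  rw [h1] at h
  exact h

theorem P_comp {V V' W : Type*} (φ ψ : V' → W) (e : V → V') (l : List V) (c : List W → F) :
    P φ ψ (l.map e) c = P (fun v => φ (e v)) (fun v => ψ (e v)) l c := by
  induction l generalizing c with
  | nil => rfl
  | cons a l ih =>
    rw [List.map_cons, P_cons, P_cons, ih, List.map_map]
    rfl

theorem P_post {V W W' : Type*} (φ ψ : V → W) (e : W → W') (l : List V) (c : List W' → F) :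
    P (fun v => e (φ v)) (fun v => e (ψ v)) l c = P φ ψ l (fun t => c (t.map e)) := by
  induction l generalizing c with
  | nil => rfl
  | cons a l ih =>
    rw [P_cons, P_cons, ih, List.map_cons, List.map_cons, List.map_map]
    rfl

theorem pb_inv (hX : Inv L X) (hA : Inv L A)
    (hper : ∀ l ∈ L, ∃ l' ∈ L', ∀ v, φ (v + l) = φ v + l') {c : Co ι F}
    (hc : ∀ l ∈ L', ∀ σ, c (tr l σ) = c σ) :
    ∀ l ∈ L, ∀ σ, pb X A φ c (tr l σ) = pb X A φ c σ := by
  intro l hl σ
  rw [pb_apply, pb_apply]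
  by_cases h : Live X A σ
  · rw [if_pos h, if_pos ((live_tr hX hA hl).2 h), sl_tr l h.1.1]
    obtain ⟨l', hl', h'⟩ := hper l hl
    have h1 : ((sl σ).map (fun v => v + l)).map φ = ((sl σ).map φ).map (fun v => v + l') := by
      rw [List.map_map, List.map_map]
      exact List.map_congr_left fun v _ => h' v
    rw [h1, ev_tr l' _ (hc l' hl')]
  · rw [if_neg h, if_neg (fun h' => h ((live_tr hX hA hl).1 h'))]

/-- the pull back of a relative cochain -/
theorem pb_mem (hX : Inv L X) (hA : Inv L A) (h : VM L X A L' X' A' φ) {j : ℕ} {c : Co ι F}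
    (hc : c ∈ co L' X' A' j) : pb X A φ c ∈ co L X A j := by
  classical
  refine ⟨pb_inv hX hA h.per hc.1, fun σ hσ => ?_⟩
  rw [pb_apply] at hσ
  have hl : Live X A σ := by
    by_contra h'
    exact hσ (if_neg h')
  rw [if_pos hl] at hσ
  obtain ⟨h1, h2⟩ := ev_ne_zero hσ
  obtain ⟨-, -, h3⟩ := hc.2 _ h2
  refine ⟨hl.1, hl.2, ?_⟩
  rw [← h3, List.toFinset_card_of_nodup h1, List.length_map, length_sl hl.1.1]

open Classical in
theorem mix_mem {l₁ l₂ : List (ι → ℤ)} {a u : ι → ℤ}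
    (hu : u ∈ l₁.map φ ++ φ a :: ψ a :: l₂.map ψ) :
    (∃ v, (v ∈ l₁ ∨ v = a) ∧ u = φ v) ∨ (∃ v, (v ∈ l₂ ∨ v = a) ∧ u = ψ v) := by
  rw [List.mem_append, List.mem_cons, List.mem_cons, List.mem_map, List.mem_map] at hu
  rcases hu with ⟨v, hv, rfl⟩ | rfl | rfl | ⟨v, hv, rfl⟩
  · exact Or.inl ⟨v, Or.inl hv, rfl⟩
  · exact Or.inl ⟨a, Or.inr rfl, rfl⟩
  · exact Or.inr ⟨a, Or.inr rfl, rfl⟩
  · exact Or.inr ⟨v, Or.inl hv, rfl⟩

open Classical in
/-- mixed lists are simplices of `X'` -/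
theorem VP.mix (h : VP L X A L' X' A' φ ψ) {σ : Finset (ι → ℤ)} (hσ : Live X A σ)
    {t : List (ι → ℤ)} (ht : t.Pairwise (· < ·)) (hts : ∀ v ∈ t, v ∈ σ)
    {l₁ l₂ : List (ι → ℤ)} {a : ι → ℤ} (hl : t = l₁ ++ a :: l₂) :
    In X' (l₁.map φ ++ φ a :: ψ a :: l₂.map ψ).toFinset := by
  subst hl
  have ha : a ∈ l₁ ++ a :: l₂ := List.mem_append.2 (Or.inr List.mem_cons_self)
  have hm1 : ∀ v, v ∈ l₁ ∨ v = a → v ∈ σ := by
    rintro v (hv | rfl)
    · exact hts v (List.mem_append.2 (Or.inl hv))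
    · exact hts _ ha
  have hm2 : ∀ v, v ∈ l₂ ∨ v = a → v ∈ σ := by
    rintro v (hv | rfl)
    · exact hts v (List.mem_append.2 (Or.inr (List.mem_cons_of_mem _ hv)))
    · exact hts _ ha
  rw [List.pairwise_append, List.pairwise_cons] at ht
  have hle : ∀ v, v ∈ l₁ ∨ v = a → ∀ w, w ∈ l₂ ∨ w = a → v ≤ w := by
    rintro v (hv | rfl) w (hw | rfl)
    · exact (ht.2.2 v hv w (List.mem_cons_of_mem _ hw)).le
    · exact (ht.2.2 v hv w List.mem_cons_self).le
    · exact (ht.2.1.1 w hw).le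
    · exact le_rfl
  refine ⟨fun u hu u' hu' => ?_, fun u hu => ?_⟩
  · rw [List.mem_toFinset] at hu hu'
    rcases mix_mem hu with ⟨v, hv, rfl⟩ | ⟨v, hv, rfl⟩ <;>
      rcases mix_mem hu' with ⟨w, hw, rfl⟩ | ⟨w, hw, rfl⟩
    · exact (h.simφ σ hσ v (hm1 v hv) w (hm1 w hw)).2
    · exact h.sim σ hσ v (hm1 v hv) w (hm2 w hw) (hle v hv w hw)
    · exact (h.sim σ hσ w (hm1 w hw) v (hm2 v hv) (hle w hw v hv)).symm
    · exact (h.simψ σ hσ v (hm2 v hv) w (hm2 w hw)).2
  · rw [List.mem_toFinset] at hu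
    rcases mix_mem hu with ⟨v, hv, rfl⟩ | ⟨v, hv, rfl⟩
    · exact (h.simφ σ hσ v (hm1 v hv) v (hm1 v hv)).1
    · exact (h.simψ σ hσ v (hm2 v hv) v (hm2 v hv)).1

theorem pr_mem (hX : Inv L X) (hA : Inv L A) (h : VP L X A L' X' A' φ ψ) {j : ℕ} {c : Co ι F}
    (hc : c ∈ co L' X' A' (j + 1)) : pr X A φ ψ c ∈ co L X A j := by
  classical
  refine ⟨fun l hl σ => ?_, fun σ hσ => ?_⟩
  · unfold pr
    by_cases hσ : Live X A σ
    · rw [if_pos hσ, if_pos ((live_tr hX hA hl).2 hσ), sl_tr l hσ.1.1, P_comp]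
      obtain ⟨l', hl', h'⟩ := h.per l hl
      have h1 : (fun v => φ (v + l)) = fun v => φ v + l' := funext fun v => (h' v).1
      have h2 : (fun v => ψ (v + l)) = fun v => ψ v + l' := funext fun v => (h' v).2
      rw [h1, h2, P_post (e := fun v => v + l')]
      congr 1
      funext t
      exact ev_tr l' t (hc.1 l' hl')
    · rw [if_neg hσ, if_neg (fun h' => hσ ((live_tr hX hA hl).1 h'))]
  · unfold pr at hσ
    have hl : Live X A σ := by
      by_contra h'
      exact hσ (if_neg h')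
    rw [if_pos hl] at hσ
    refine ⟨hl.1, hl.2, ?_⟩
    by_contra hj
    refine hσ ?_
    rw [← P_zero (F := F) φ ψ (sl σ)]
    refine P_congr fun l₁ a l₂ hl' => ?_
    by_contra h0
    obtain ⟨h1, h2⟩ := ev_ne_zero h0
    obtain ⟨-, -, h3⟩ := hc.2 _ h2
    rw [List.toFinset_card_of_nodup h1] at h3
    have h4 := length_sl hl.1.1
    rw [hl'] at h4
    simp only [List.length_append, List.length_cons, List.length_map] at h3 h4
    omega

/-- **prism homotopy** -/
theorem prism (h : VP L X A L' X' A' φ ψ) {j : ℕ} {c : Co ι F} (hc : c ∈ co L' X' A' j) :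
    dX X (pr X A φ ψ c) + pr X A φ ψ (dX X' c) = pb X A ψ c - pb X A φ c := by
  classical
  ext σ
  rw [Pi.add_apply, Pi.sub_apply, pb_apply, pb_apply]
  by_cases hσ : Live X A σ
  swap
  · have h1 : dX X (pr X A φ ψ c) σ = 0 := by
      rw [dX_apply]
      split_ifs with hIn
      · refine Finset.sum_eq_zero fun v _ => ?_
        have h2 : pr X A φ ψ c (σ.erase v) = 0 := by
          unfold pr
          refine if_neg fun h3 => hσ ⟨hIn, fun h4 => h3.2 fun w hw => ?_⟩
          exact h4 w (Finset.mem_of_mem_erase hw)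
        rw [h2, mul_zero]
      · rfl
    have h2 : pr X A φ ψ (dX X' c) σ = 0 := if_neg hσ
    rw [h1, h2, if_neg hσ, if_neg hσ, add_zero, sub_zero]
  obtain ⟨hs1, hs2⟩ := sl_spec hσ.1.1
  have hmem : ∀ v ∈ sl σ, v ∈ σ := fun v hv => (mem_sl hσ.1.1).1 hv
  have h1 : dX X (pr X A φ ψ c) σ = D (sl σ) (fun t => P φ ψ t (fun s => ev s c)) := by
    have h2 : dX X (pr X A φ ψ c) σ = dd (pr X A φ ψ c) σ := by
      rw [dX_apply, if_pos hσ.1, dd_apply]
    have h3 : dd (pr X A φ ψ c) σ = ev (sl σ) (dd (pr X A φ ψ c)) := by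
      rw [ev_sorted hs1, hs2]
    rw [h2, h3, ev_dd (chain_of_pairwise hs1)]
    refine D_congr fun t ht _ => ?_
    have ht1 : t.Pairwise (· < ·) := hs1.sublist ht
    have hts : ∀ v ∈ t, v ∈ σ := fun v hv => hmem v (ht.subset hv)
    rw [ev_sorted ht1]
    unfold pr
    by_cases hl : Live X A t.toFinset
    · rw [if_pos hl, sl_eq ht1]
    · rw [if_neg hl]
      have hall : ∀ v ∈ t, v ∈ A := by
        by_contra h4
        refine hl ⟨⟨hσ.1.1.mono fun v hv => hts v (List.mem_toFinset.1 hv), fun v hv =>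
          hσ.1.2 v (hts v (List.mem_toFinset.1 hv))⟩, fun h5 => h4 fun v hv =>
            h5 v (List.mem_toFinset.2 hv)⟩
      rw [← P_zero (F := F) φ ψ t]
      refine P_congr fun l₁ a l₂ hl' => ?_
      symm
      refine ev_zero ?_
      by_contra h0
      refine (hc.2 _ h0).2.1 fun u hu => ?_
      have ha : a ∈ t := by rw [hl']; exact List.mem_append.2 (Or.inr List.mem_cons_self)
      rcases mix_mem (List.mem_toFinset.1 hu) with ⟨v, hv, rfl⟩ | ⟨v, hv, rfl⟩
      · have hv' : v ∈ t := by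
          rcases hv with hv | rfl
          · rw [hl']; exact List.mem_append.2 (Or.inl hv)
          · exact ha
        exact h.bdφ σ hσ v (hts v hv') (hall v hv')
      · have hv' : v ∈ t := by
          rcases hv with hv | rfl
          · rw [hl']; exact List.mem_append.2 (Or.inr (List.mem_cons_of_mem _ hv))
          · exact ha
        exact h.bdψ σ hσ v (hts v hv') (hall v hv')
  have h2 : pr X A φ ψ (dX X' c) σ = P φ ψ (sl σ) (fun s => D s (fun t => ev t c)) := by
    have h3 : pr X A φ ψ (dX X' c) σ = P φ ψ (sl σ) (fun s => ev s (dX X' c)) := if_pos hσ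
    rw [h3]
    refine P_congr fun l₁ a l₂ hl' => ?_
    have hIn := h.mix hσ hs1 hmem hl'
    have h4 : ev (l₁.map φ ++ φ a :: ψ a :: l₂.map ψ) (dX X' c) =
        ev (l₁.map φ ++ φ a :: ψ a :: l₂.map ψ) (dd c) := by
      refine ev_congr ?_
      rw [dX_apply, if_pos hIn, dd_apply]
    rw [h4, ev_dd]
    intro v hv w hw
    rcases hIn.1 v (List.mem_toFinset.2 hv) w (List.mem_toFinset.2 hw) with h5 | h5
    · exact Or.inl h5.1
    · exact Or.inr h5.1
  rw [h1, h2, D_P, if_pos hσ, if_pos hσ]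

/-- the pull back commutes with the coboundary -/
theorem pb_dX (h : VM L X A L' X' A' φ) {j : ℕ} {c : Co ι F} (hc : c ∈ co L' X' A' j) :
    dX X (pb X A φ c) = pb X A φ (dX X' c) := by
  classical
  ext σ
  rw [pb_apply]
  by_cases hσ : Live X A σ
  swap
  · rw [if_neg hσ, dX_apply]
    split_ifs with hIn
    · refine Finset.sum_eq_zero fun v _ => ?_
      have h2 : pb X A φ c (σ.erase v) = 0 := by
        rw [pb_apply]
        refine if_neg fun h3 => hσ ⟨hIn, fun h4 => h3.2 fun w hw => ?_⟩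
        exact h4 w (Finset.mem_of_mem_erase hw)
      rw [h2, mul_zero]
    · rfl
  obtain ⟨hs1, hs2⟩ := sl_spec hσ.1.1
  have hmem : ∀ v ∈ sl σ, v ∈ σ := fun v hv => (mem_sl hσ.1.1).1 hv
  have h2 : dX X (pb X A φ c) σ = dd (pb X A φ c) σ := by
    rw [dX_apply, if_pos hσ.1, dd_apply]
  have h3 : dd (pb X A φ c) σ = ev (sl σ) (dd (pb X A φ c)) := by
    rw [ev_sorted hs1, hs2]
  have hIn : In X' ((sl σ).map φ).toFinset := by
    refine ⟨fun u hu u' hu' => ?_, fun u hu => ?_⟩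
    · rw [List.mem_toFinset, List.mem_map] at hu hu'
      obtain ⟨v, hv, rfl⟩ := hu
      obtain ⟨w, hw, rfl⟩ := hu'
      exact (h.sim σ hσ v (hmem v hv) w (hmem w hw)).2
    · rw [List.mem_toFinset, List.mem_map] at hu
      obtain ⟨v, hv, rfl⟩ := hu
      exact (h.sim σ hσ v (hmem v hv) v (hmem v hv)).1
  have h4 : ev ((sl σ).map φ) (dX X' c) = ev ((sl σ).map φ) (dd c) := by
    refine ev_congr ?_
    rw [dX_apply, if_pos hIn, dd_apply]
  rw [h2, h3, ev_dd (chain_of_pairwise hs1), if_pos hσ, h4, ev_dd, D_map]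
  · refine D_congr fun t ht _ => ?_
    have ht1 : t.Pairwise (· < ·) := hs1.sublist ht
    have hts : ∀ v ∈ t, v ∈ σ := fun v hv => hmem v (ht.subset hv)
    rw [ev_sorted ht1, pb_apply]
    by_cases hl : Live X A t.toFinset
    · rw [if_pos hl, sl_eq ht1]
    · rw [if_neg hl]
      have hall : ∀ v ∈ t, v ∈ A := by
        by_contra h4
        refine hl ⟨⟨hσ.1.1.mono fun v hv => hts v (List.mem_toFinset.1 hv), fun v hv =>
          hσ.1.2 v (hts v (List.mem_toFinset.1 hv))⟩, fun h5 => h4 fun v hv =>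
            h5 v (List.mem_toFinset.2 hv)⟩
      symm
      refine ev_zero ?_
      by_contra h0
      refine (hc.2 _ h0).2.1 fun u hu => ?_
      rw [List.mem_toFinset, List.mem_map] at hu
      obtain ⟨v, hv, rfl⟩ := hu
      exact h.bd σ hσ v (hts v hv) (hall v hv)
  · intro v hv w hw
    rcases hIn.1 v (List.mem_toFinset.2 hv) w (List.mem_toFinset.2 hw) with h5 | h5
    · exact Or.inl h5.1
    · exact Or.inr h5.1

/-- a chain of contiguous maps -/
theorem prism_chain (hX : Inv L X) (hA : Inv L A) (φ : ℕ → (ι → ℤ) → (ι → ℤ)) (K : ℕ)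
    (h : ∀ i < K, VP L X A L' X' A' (φ i) (φ (i + 1))) {j : ℕ} {c : Co ι F}
    (hc : c ∈ co L' X' A' (j + 1)) (hd : dX X' c = 0) :
    ∃ β ∈ co L X A j, pb X A (φ K) c - pb X A (φ 0) c = dX X β := by
  induction K with
  | zero => exact ⟨0, Submodule.zero_mem _, by rw [sub_self, map_zero]⟩
  | succ K ih =>
    obtain ⟨β, hβ, hβ'⟩ := ih fun i hi => h i (by omega)
    have hK := h K (by omega)
    refine ⟨β + pr X A (φ K) (φ (K + 1)) c, Submodule.add_mem _ hβ (pr_mem hX hA hK hc), ?_⟩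
    have h1 := prism hK hc
    have h2 : pr X A (φ K) (φ (K + 1)) (dX X' c) = 0 := by
      rw [hd]
      funext σ
      unfold pr
      split_ifs
      · have h3 : (fun t => ev t (0 : Co ι F)) = fun _ => (0 : F) := funext fun t => map_zero _
        rw [h3, P_zero]
        rfl
      · rfl
    rw [h2, add_zero] at h1
    rw [map_add, ← hβ', h1]
    abel

end Pool.Agent.H78.FU
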